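import Pool.Agent.Lib.MP_cb354f_nt.Ana

/-!
(m, k)-perfect numbers are rare: the theorem of Hornfeck and Wirsing for the iterates of the sum of divisors.

Hornfeck and Wirsing (1957, 1959) proved that at most `x ^ (C / log log x)` numbers `n ≤ x` are multiply perfect, that is,
divide `σ(n)`. We prove the same for every iterate `σ^m` of `σ`, uniformly in `m`; for `m = 2` this bounds the number of
the `(2,5)`-perfect numbers, the possible counterexamples to Q1.

Idea of the proof. Let `n_i = σ^i(n)` for `i < m` and `σ^m(n) = k n`. Split off the part of every `n_i` composed of the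
primes up to `y = log x`; there are at most `x ^ (C / log log x)` possibilities for each. Suppose that unitary divisors
`S_i` of all `n_i` are known which contain these parts, and let `n_i = S_i b_i`. Then
`σ(b_i) / b_(i+1) = k_i S_(i+1) / σ(S_i)` for all `i` modulo `m` (`k_i = 1` except for the last `i`). If all these numbers are
integers, their product `∏ σ(b_i) / b_i` is an integer in `[1, 2)`, because the primes of the `b_i` are large, hence it is `1`
and all `b_i` are `1`. Otherwise a denominator is divisible by a known prime, which divides one of the `b_i`. So all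
`n_i` are determined by the small parts and a sequence of exponents whose sum is at most `4 m log x / log log x`; there
are at most `2 ^ (4 m log x / log log x)` such sequences.
-/

namespace Pool.Agent.Results.MP_cb354f_nt.IteratedSigmaCount

open ArithmeticFunction Filter Pool.Agent.Lib.MP_cb354f_nt

private theorem ex_s0 : ∃ s0 : ℝ, 10 ≤ s0 ∧ ∀ s : ℝ, s0 ≤ s → 8 * Real.log s ^ 2 ≤ s := by
  have h := (Real.isLittleO_pow_log_id_atTop (n := 2)).bound (by norm_num : (0 : ℝ) < 1 / 8)
  obtain ⟨s1, hs1⟩ := Filter.eventually_atTop.1 h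
  refine ⟨max 10 s1, le_max_left _ _, fun s hs => ?_⟩
  have h1 := hs1 s ((le_max_right _ _).trans hs)
  have h2 : (0 : ℝ) < s := by linarith [(le_max_left (10 : ℝ) s1).trans hs]
  simp only [id, Real.norm_eq_abs, abs_of_pos h2] at h1
  have h3 := le_abs_self (Real.log s ^ 2)
  linarith

/-- There is an absolute constant `C` such that for all real `x ≥ 16` and all `m ≥ 1` at most `x ^ (C m / log log x)`
positive integers `n ≤ x` divide `σ^m(n)`, the `m`-th iterate of the sum of divisors, that is, satisfy `σ^m(n) = k n` for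
some integer `k`. For `m = 2` the solutions of `σ(σ(n)) = 5 n` are among them. -/
theorem result : ∃ C : ℝ, ∀ x : ℝ, 16 ≤ x → ∀ m : ℕ, 1 ≤ m →
    (({n : ℕ | 0 < n ∧ (n : ℝ) ≤ x ∧ n ∣ (sigma 1)^[m] n}.ncard : ℕ) : ℝ) ≤
      x ^ (C * m / Real.log (Real.log x)) := by
  obtain ⟨s0, hs0, hall⟩ := ex_s0
  set C := max 25 (2 * Real.log s0) with hC
  have hC25 : 25 ≤ C := le_max_left _ _
  have hCs : 2 * Real.log s0 ≤ C := le_max_right _ _
  refine ⟨C, fun x hx m hm => ?_⟩
  have hx0 : 0 < x := by linarith
  have hℓ : 1 < Real.log x := by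
    rw [Real.lt_log_iff_exp_lt hx0]
    have := Real.exp_one_lt_d9
    linarith
  set ℓ := Real.log x with hℓdef
  set lam := Real.log ℓ with hlam
  have hlam0 : 0 < lam := Real.log_pos hℓ
  have hm' : (1 : ℝ) ≤ m := by exact_mod_cast hm
  set A : Set ℕ := {n : ℕ | 0 < n ∧ (n : ℝ) ≤ x ∧ n ∣ (sigma 1)^[m] n} with hA
  have hAsub : A ⊆ ((Finset.Icc 1 ⌊x⌋₊ : Finset ℕ) : Set ℕ) := by
    intro n hn
    rw [Finset.coe_Icc, Set.mem_Icc]
    exact ⟨hn.1, Nat.le_floor hn.2.1⟩
  have hAfin : A.Finite := (Finset.finite_toSet _).subset hAsub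
  by_cases hbig : lam ≤ C * m
  · -- trivial case
    have h1 : (A.ncard : ℝ) ≤ x := by
      have h2 : A.ncard ≤ ⌊x⌋₊ := by
        have h3 := Set.ncard_le_ncard hAsub (Finset.finite_toSet _)
        rw [Set.ncard_coe_finset, Nat.card_Icc] at h3
        simpa using h3
      exact (Nat.cast_le.2 h2).trans (Nat.floor_le hx0.le)
    refine h1.trans ?_
    have h4 : 1 ≤ C * m / lam := by
      rw [le_div_iff₀ hlam0]
      linarith
    calc x = x ^ (1 : ℝ) := (Real.rpow_one x).symm
      _ ≤ x ^ (C * m / lam) := Real.rpow_le_rpow_of_exponent_le (by linarith) h4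
  · push Not at hbig
    obtain ⟨m', rfl⟩ : ∃ m', m = m' + 1 := ⟨m - 1, by omega⟩
    set s := Real.sqrt ℓ with hs
    have hℓ0 : 0 < ℓ := by linarith
    have hs2 : s ^ 2 = ℓ := Real.sq_sqrt hℓ0.le
    have hlogs : 2 * Real.log s = lam := by
      rw [hs, Real.log_sqrt hℓ0.le, hlam]
      ring
    have hlt : 2 * Real.log s0 < 2 * Real.log s := by
      rw [hlogs]
      calc 2 * Real.log s0 ≤ C := hCs
        _ ≤ C * ((m' + 1 : ℕ) : ℝ) := by nlinarith
        _ < lam := hbig
    have hspos : 0 < s := Real.sqrt_pos.2 hℓ0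
    have hss : s0 ≤ s := by
      have h1 : Real.log s0 < Real.log s := by linarith
      exact ((Real.log_lt_log_iff (by linarith) hspos).1 h1).le
    have hexp : Real.exp (s ^ 2) = x := by rw [hs2, hℓdef, Real.exp_log hx0]
    have hm24 : ((m' + 1 : ℕ) : ℝ) ≤ 2 * Real.log s / 24 := by
      rw [hlogs, le_div_iff₀ (by norm_num)]
      nlinarith
    have hcard := count_large (by linarith : 10 ≤ s) (hall s hss) m' hm24 hAfin.toFinset (by
      intro n hn
      rw [Set.Finite.mem_toFinset] at hn
      rw [hexp]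
      exact hn)
    rw [← Set.ncard_eq_toFinset_card A hAfin] at hcard
    refine hcard.trans ?_
    rw [hlogs, hs2, Real.rpow_def_of_pos hx0, ← hℓdef]
    apply Real.exp_le_exp.2
    have h5 : 0 ≤ ((m' + 1 : ℕ) : ℝ) := Nat.cast_nonneg _
    rw [mul_div_assoc', div_le_div_iff_of_pos_right hlam0]
    nlinarith [mul_nonneg h5 hℓ0.le]

end Pool.Agent.Results.MP_cb354f_nt.IteratedSigmaCount
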